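import Pool.Agent.W84.FP.Defs
import Pool.Agent.W571.GC.Pair
import Pool.Agent.W435.GC.SCC

/-!
Project FP: large hitting sets, weaker hypothesis on the colour. The coloured theorem is applied to
the colour `the primitive part has the given colour`, which agrees with the given colour on
primitive elements.
-/

set_option autoImplicit false

namespace Pool.Agent.W538.FP

open Finset Filter
open Pool.Agent.H376R2.MR
open Pool.Agent.W78.GA Pool.Agent.W78.GC Pool.Agent.W84.FP Pool.Agent.W803.GA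

variable {t c : ℤ}

/-- the primitive part has the colour `col` -/
def pcol (col : Qd t c → Prop) (z : Qd t c) : Prop :=
  ∃ (n : ℕ) (y : Qd t c), 0 < n ∧ prim y ∧ col y ∧ z = (n : Qd t c) * y

lemma natCast_mul_eq (n : ℕ) (y : Qd t c) :
    (n : Qd t c) * y = ⟨(n : ℤ) * y.re, (n : ℤ) * y.im⟩ := by
  apply QuadraticAlgebra.ext <;> simp

lemma gcd_natCast_mul (n : ℕ) {y : Qd t c} (hy : prim y) :
    Int.gcd ((n : Qd t c) * y).re ((n : Qd t c) * y).im = n := by
  rw [natCast_mul_eq]
  show Int.gcd ((n : ℤ) * y.re) ((n : ℤ) * y.im) = n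
  rw [Int.gcd_mul_left]
  unfold prim at hy
  rw [hy]
  simp

lemma prim_unique {n m : ℕ} {y z : Qd t c} (hn : 0 < n) (hy : prim y) (hz : prim z)
    (h : (n : Qd t c) * y = (m : Qd t c) * z) : n = m ∧ y = z := by
  have h1 : n = m := by
    rw [← gcd_natCast_mul n hy, ← gcd_natCast_mul m hz, h]
  subst h1
  refine ⟨rfl, ?_⟩
  rw [natCast_mul_eq, natCast_mul_eq] at h
  have h2 := congrArg QuadraticAlgebra.re h
  have h3 := congrArg QuadraticAlgebra.im h
  simp only at h2 h3
  have hn' : (n : ℤ) ≠ 0 := by exact_mod_cast hn.ne'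
  exact QuadraticAlgebra.ext (mul_left_cancel₀ hn' h2) (mul_left_cancel₀ hn' h3)

lemma pcol_iff {col : Qd t c → Prop} {z : Qd t c} (hz : prim z) : pcol col z ↔ col z := by
  constructor
  · rintro ⟨n, y, hn, hy, hc, h⟩
    have h1 : ((1 : ℕ) : Qd t c) * z = (n : Qd t c) * y := by rw [Nat.cast_one, one_mul, h]
    obtain ⟨-, h2⟩ := prim_unique one_pos hz hy h1
    rwa [h2]
  · intro h
    exact ⟨1, z, one_pos, hz, h, by rw [Nat.cast_one, one_mul]⟩

lemma cball_pcol (col : Qd t c → Prop) : cball (pcol col) = cball col := by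
  classical
  funext X
  unfold cball
  apply Finset.filter_congr
  intro z hz
  unfold pball at hz
  exact pcol_iff (Finset.mem_filter.1 hz).2

lemma gcd_nm {u y z : Qd t c} {n : ℕ} (hD : t ^ 2 < 4 * c) (hz : prim z)
    (h : u * z = (n : Qd t c) * y) : n ∣ nm u := by
  have h1 : ((nm u : ℕ) : Qd t c) * z = (n : Qd t c) * (star u * y) := by
    rw [← star_mul_self' hD u, mul_assoc, h]
    ring
  have h2 := gcd_natCast_mul (nm u) hz
  rw [h1, natCast_mul_eq] at h2
  have h3 : Int.gcd ((n : ℤ) * (star u * y).re) ((n : ℤ) * (star u * y).im) = nm u := h2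
  rw [Int.gcd_mul_left, Int.natAbs_natCast] at h3
  exact ⟨_, h3.symm⟩

lemma col_pcol (hD : t ^ 2 < 4 * c) {col : Qd t c → Prop} {u : Qd t c} (h : Col2 t c col u) :
    Col t c (pcol col) u where
  div := by
    rintro m z ⟨n, y, hn, hy, hc, he⟩
    have hz : z ≠ 0 := by
      rintro rfl
      rw [mul_zero] at he
      have h1 := gcd_natCast_mul n hy
      rw [← he] at h1
      simp at h1
      omega
    obtain ⟨y', k, hk, hy', hzk⟩ := exists_primpart hz
    have h1 : (n : Qd t c) * y = ((m * k : ℕ) : Qd t c) * y' := by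
      rw [← he, hzk]; push_cast; ring
    obtain ⟨-, h2⟩ := prim_unique hn hy hy' h1
    exact ⟨k, y', hk, hy', h2 ▸ hc, hzk⟩
  mul := by
    rintro z ⟨n, y, hn, hy, hc, rfl⟩
    have hw : u * y ≠ 0 := mul_ne_zero' hD h.u_ne (prim_ne_zero hy)
    obtain ⟨y', k, hk, hy', he⟩ := exists_primpart hw
    have h1 : k ∣ nm u := gcd_nm hD hy he
    have h2 : col y' := h.div k y' h1 (by rw [← he]; exact h.mul y hc)
    refine ⟨n * k, y', Nat.mul_pos hn hk, hy', h2, ?_⟩
    push_cast
    rw [mul_assoc, ← he]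
    ring
  u_ne := h.u_ne
  u_lam := h.u_lam

theorem sc2 (hD : t ^ 2 < 4 * c) (hsect : S_SECT t c) (hlat : S_LAT t c) : S_SC2 t c := by
  intro col u hcol hmr hA0
  have hG : ∀ Y k, Gc (pcol col) Y k = Gc col Y k := by
    intro Y k
    unfold Gc
    rw [cball_pcol]
  have hmr' : S_MRC (pcol col) := by
    unfold S_MRC
    simp only [hG]
    exact hmr
  have hA0' : S_A0C (pcol col) := by
    unfold S_A0C
    rw [cball_pcol]
    exact hA0
  have h := Pool.Agent.W435.GC.scc_of hD (pcol col) u (col_pcol hD hcol) hmr'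
    (Pool.Agent.W571.GC.pairc hD hsect hlat) hA0'
  unfold S_SCC Hits at h ⊢
  rw [cball_pcol] at h
  exact h

end Pool.Agent.W538.FP
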